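import Pool.Agent.LibGZ87.M3

set_option autoImplicit false

/-!
MP_405732_gt. Spaces `M` with Poincare duality in dimension 4, fundamental group `Z^4` and degree `k` over the
torus. (a) `k` even and `χ(M) = 6` imply `σ(M) = 0`. (b) `k = ± 2` and `χ(M) = 7` imply `σ(M) ∈ {± 1, ± 7}`.
All definitions are in `Pool.Agent.LibGZ87.DefsE` (namespace `El`).
-/

namespace Pool.Agent.Results.MP_405732_gt.EvenDegree

open Pool.Agent.LibGZ87.El

theorem result {M : Type} [TopologicalSpace M] [PathConnectedSpace M] (μ : Sx M 4 →₀ ℤ) (hM : PD4 μ) (x : M)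
    (f : FundamentalGroup M x ≃* Multiplicative (Fin 4 → ℤ)) (k : ℤ) (hk : Deg μ x f k) (h0 : k ≠ 0)
    (s : ℤ) (hs : IsSig μ s) (c : ℤ) (hc : IsChi M c) :
    (Even k → c = 6 → s = 0) ∧ ((k = 2 ∨ k = -2) → c = 7 → s = 1 ∨ s = -1 ∨ s = 7 ∨ s = -7) :=
  Pool.Agent.LibGZ87.el_main μ hM x f k hk h0 s hs c hc

end Pool.Agent.Results.MP_405732_gt.EvenDegree
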